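import Pool.Agent.Lib.MP_28260b_nt.Club

namespace Pool.Agent.Results.MP_28260b_nt.ExplicitShift

open Finset
open scoped ArithmeticFunction.sigma

/-- First members of six friendly pairs. -/
def U : Fin 6 → ℕ :=
  ![2 ^ 16 * 131071,
    5 ^ 5 * 11 ^ 2 * 61 ^ 2 * 71 ^ 2 * 1279 * 2557 * 5113,
    3 ^ 7 * 7 ^ 2 * 41 ^ 2 * 431 * 467 * 1723,
    13 ^ 6 * 31 ^ 3 * 47 ^ 5 * 53 ^ 3 * 67 * 83 ^ 2 * 103 ^ 2 * 131 ^ 2 * 191 ^ 2 * 281 * 349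
      * 367 ^ 2 * 433 * 683 ^ 4 * 1151 * 3463 * 3571 * 8647 * 17293 * 67429 * 1307261 * 5229043
      * 189340631,
    19 ^ 4 * 151 * 911,
    17 ^ 7 * 23 ^ 4 * 29 ^ 3 * 157 ^ 3 * 211 * 337 * 401 * 421 ^ 3 * 673 * 827 * 7699 * 41761
      * 292561]

/-- Second members of the six friendly pairs. -/
def V : Fin 6 → ℕ :=
  ![2 ^ 12 * 8191,
    5 ^ 4 * 11 ^ 3 * 61 ^ 3 * 71 ^ 3 * 1861 * 2521,
    3 ^ 5 * 7 ^ 4 * 41 * 467 ^ 2 * 719 * 2801 * 11503,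
    13 ^ 4 * 31 ^ 2 * 47 ^ 2 * 53 ^ 4 * 67 ^ 2 * 83 ^ 3 * 103 * 131 ^ 3 * 191 ^ 3 * 311 * 331
      * 349 ^ 2 * 367 * 683 ^ 3 * 2143 * 2791 * 5581 * 8581 * 30941 * 46649,
    19 ^ 2 * 127,
    17 ^ 6 * 23 ^ 5 * 29 ^ 2 * 157 ^ 2 * 173 * 229 * 421 ^ 2 * 673 ^ 2 * 827 ^ 2 * 8269
      * 13999 * 29611 * 59221 * 151201 * 342379 * 684757 * 25646167]

/-- `W S T` is the product of the `U i` with `i` in `S` but not `T` and the `V i` with `i` in `T`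
but not `S`. -/
def W (S T : Finset (Fin 6)) : ℕ := (∏ i ∈ S \ T, U i) * ∏ i ∈ T \ S, V i

/-- The least common multiple of the positive differences `W S T - W T S`. -/
def L : ℕ :=
  (univ.filter fun x : Finset (Fin 6) × Finset (Fin 6) => W x.2 x.1 < W x.1 x.2).lcm
    fun x => W x.1 x.2 - W x.2 x.1

open Pool.Agent.Lib.MP_28260b_nt in
theorem result : 0 < L ∧ ∀ m : ℕ, 0 < m → m.Coprime (∏ i, U i * V i) →
    {n : ℕ | 0 < n ∧ σ 1 n = σ 1 (n + L * m)}.Infinite := by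
  have h0 : 0 < L := by decide +kernel
  have h1 : ∀ i, U i = pp (FU i) ∧ V i = pp (FV i) := by decide +kernel
  refine ⟨h0, fun m h2 h3 => club_good (W := W) (fun _ _ => rfl) (by decide +kernel)
    (by decide +kernel) (fun i => ?_) (by decide +kernel) h0 (by decide +kernel) h2 h3⟩
  rw [(h1 i).1, (h1 i).2, friendly]

end Pool.Agent.Results.MP_28260b_nt.ExplicitShift
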