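import Mathlib
import Pool.Agent.Lib.MP_28260b_nt.Sg.Main
import Pool.Agent.Lib.MP_be93de_nt.Pa7

set_option autoImplicit false

namespace Pool.Agent.Results.MP_28260b_nt.SigmaDifferences

/-- Every positive even integer is a difference of two values of the sum of divisors function
for infinitely many pairs of arguments. -/
theorem result (d : ℕ) (hd : 0 < d) (he : Even d) :
    Set.Infinite {ab : ℕ × ℕ | 0 < ab.1 ∧ 0 < ab.2 ∧
      ArithmeticFunction.sigma 1 ab.1 = ArithmeticFunction.sigma 1 ab.2 + d} :=
  Pool.Agent.Lib.MP_28260b_nt.Sg.main Pool.Agent.Lib.MP_be93de_nt.Pa.parts d hd he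

end Pool.Agent.Results.MP_28260b_nt.SigmaDifferences
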