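import Pool.Agent.Lib.MP_28260b_nt.Sp.F

/-! The solutions of `σ(n) = σ(n + l)` outside the family coming from friendly pairs are rare. -/

namespace Pool.Agent.Results.MP_28260b_nt.SporadicBound

open ArithmeticFunction ArithmeticFunction.sigma

theorem result : ∀ ε : ℝ, 0 < ε → ∃ γ : ℝ, 0 < γ ∧ ∃ x₀ : ℕ, ∀ x : ℕ, x₀ ≤ x → ∀ l : ℕ, 0 < l →
    (l : ℝ) ≤ (x : ℝ) ^ γ →
      (Set.ncard {n : ℕ | 0 < n ∧ n ≤ x ∧ σ 1 n = σ 1 (n + l) ∧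
        ¬ ∃ a b p q : ℕ, p.Prime ∧ q.Prime ∧ ¬ p ∣ a ∧ ¬ q ∣ b ∧ n = a * p ∧ n + l = b * q ∧
          a = b + l ∧ σ 1 a * b = σ 1 b * a} : ℝ)
      ≤ x * Real.exp (-((3 / 2 - ε) * (Real.log x * Real.log (Real.log (Real.log x))
        / Real.log (Real.log x)))) := by
  intro ε hε
  obtain ⟨γ, h0, h⟩ := Pool.Agent.Lib.MP_28260b_nt.Sp.sporadic ε hε
  obtain ⟨x₀, h⟩ := Filter.eventually_atTop.1 h
  refine ⟨γ, h0, x₀, fun x hx l hl hlx => ?_⟩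
  have hf : Set.Finite {n : ℕ | 0 < n ∧ n ≤ x ∧ σ 1 n = σ 1 (n + l) ∧
      ¬ ∃ a b p q : ℕ, p.Prime ∧ q.Prime ∧ ¬ p ∣ a ∧ ¬ q ∣ b ∧ n = a * p ∧ n + l = b * q ∧
        a = b + l ∧ σ 1 a * b = σ 1 b * a} := (Set.finite_Iic x).subset fun n hn => hn.2.1
  rw [Set.ncard_eq_toFinset_card _ hf]
  exact h x hx l hl hlx _ fun n hn => hf.mem_toFinset.1 hn

end Pool.Agent.Results.MP_28260b_nt.SporadicBound
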