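import Pool.Agent.Lib.MP_6a20cc_nt.Tot.Cor

/-! For any finite family of linear forms, infinitely often a quarter of them, multiplied by
four, are totients of high multiplicity of numbers without small prime factors. -/

namespace Pool.Agent.Results.MP_28260b_nt.TotientForms

theorem result (M : ℕ) (a b : Fin M → ℤ) (ha : ∀ j, 0 < a j) (Q k : ℕ) :
    Set.Infinite {n : ℕ | M ≤ 4 * Set.ncard {j : Fin M | (k : ℕ∞) ≤ Set.encard {m : ℕ |
      (Nat.totient m : ℤ) = 4 * (a j * n + b j) ∧ ∀ q : ℕ, q.Prime → q ∣ m → Q < q}}} :=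
  Pool.Agent.Lib.MP_6a20cc_nt.Tot.formsSt M a b ha Q k

end Pool.Agent.Results.MP_28260b_nt.TotientForms
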